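import Pool.Agent.W783.Perc.Stmts

/-!
# PC-BIG: clusters in boxes are large (`S_big`)
-/

set_option autoImplicit false

open MeasureTheory Set
open scoped ENNReal

namespace Pool.Agent.W230.PCBig

open Pool.Agent.W783.PC

noncomputable section

variable {n : ℕ}

theorem CB_finite (N M : ℕ) : (CB N M : Set (V n)).Finite := by
  have h : (CB N M : Set (V n)) ⊆ (Set.Icc (-(N : ℤ)) N) ×ˢ
      (Set.Icc (fun _ : Fin n => -(M : ℤ)) (fun _ => (M : ℤ))) := by
    rintro ⟨x, y⟩ ⟨h1, h2⟩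
    simp only at h1 h2
    refine ⟨⟨by have := neg_abs_le x; show -(N : ℤ) ≤ x; linarith,
      by have := le_abs_self x; show x ≤ (N : ℤ); linarith⟩, ?_, ?_⟩
    · intro i
      have := neg_abs_le (y i)
      have := h2 i
      show -(M : ℤ) ≤ y i
      linarith
    · intro i
      have := le_abs_self (y i)
      have := h2 i
      show y i ≤ (M : ℤ)
      linarith
  exact ((Set.finite_Icc _ _).prod (Set.finite_Icc _ _)).subset h

theorem zero_mem_CB (N M : ℕ) : (0 : V n) ∈ (CB N M : Set (V n)) := by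
  refine ⟨?_, fun i => ?_⟩
  · simp
  · simp

theorem CB_mono {N M N' M' : ℕ} (hN : N ≤ N') (hM : M ≤ M') :
    (CB N M : Set (V n)) ⊆ CB N' M' := by
  rintro x ⟨h1, h2⟩
  refine ⟨h1.trans (by exact_mod_cast hN), fun i => (h2 i).trans (by exact_mod_cast hM)⟩

theorem reach_mem {E : Set (Sym2 (V n))} {ω : Cfg n} {R : Set (V n)} {x y : V n} (hx : x ∈ R)
    (h : (G E ω R).Reachable x y) : y ∈ R := by
  rw [SimpleGraph.reachable_iff_reflTransGen] at h
  induction h with
  | refl => exact hx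
  | tail _ hadj _ => exact hadj.2.2.1

theorem G_mono {E : Set (Sym2 (V n))} {ω : Cfg n} {R R' : Set (V n)} (h : R ⊆ R') :
    G E ω R ≤ G E ω R' := by
  intro x y hxy
  exact ⟨hxy.1, h hxy.2.1, h hxy.2.2.1, hxy.2.2.2⟩

open scoped Classical in
/-- the cluster in the box as a finite set -/
def Kf (E : Set (Sym2 (V n))) (N M : ℕ) (ω : Cfg n) : Finset (V n) :=
  (CB_finite (n := n) N M).toFinset.filter (fun y => (G E ω (CB N M)).Reachable 0 y)

theorem mem_Kf {E : Set (Sym2 (V n))} {N M : ℕ} {ω : Cfg n} {y : V n} :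
    y ∈ Kf E N M ω ↔ (G E ω (CB N M)).Reachable 0 y := by
  classical
  simp only [Kf, Finset.mem_filter, Set.Finite.mem_toFinset]
  exact ⟨fun h => h.2, fun h => ⟨reach_mem (zero_mem_CB N M) h, h⟩⟩

theorem coe_Kf (E : Set (Sym2 (V n))) (N M : ℕ) (ω : Cfg n) :
    (Kf E N M ω : Set (V n)) = cl E ω (CB N M) 0 := by
  ext y
  rw [Finset.mem_coe, mem_Kf]
  rfl

theorem Kf_sub {E : Set (Sym2 (V n))} {N M : ℕ} {ω : Cfg n} {y : V n} (h : y ∈ Kf E N M ω) :
    y ∈ (CB N M : Set (V n)) := reach_mem (zero_mem_CB N M) (mem_Kf.mp h)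

theorem Kf_mono {E : Set (Sym2 (V n))} {N M N' M' : ℕ} (hN : N ≤ N') (hM : M ≤ M') (ω : Cfg n) :
    Kf E N M ω ⊆ Kf E N' M' ω := by
  intro y hy
  rw [mem_Kf] at hy ⊢
  exact hy.mono (G_mono (CB_mono hN hM))

theorem hx_nonneg {s : ℝ} {N M : ℕ} {x : V n} (h : x ∈ (CB N M : Set (V n))) :
    0 ≤ hx s N M x := by
  unfold hx
  have h1 : (|(x.1 : ℝ)| : ℝ) ≤ N := by
    have := h.1
    have h2 : ((|x.1| : ℤ) : ℝ) ≤ ((N : ℤ) : ℝ) := by exact_mod_cast this
    simpa using h2
  refine add_nonneg (Finset.sum_nonneg fun i _ => ?_) (Real.rpow_nonneg (by linarith) _)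
  split_ifs
  · exact zero_le_one
  · exact le_rfl

/-- exit cost of the cluster in the box -/
def hh (E : Set (Sym2 (V n))) (s : ℝ) (N M : ℕ) (ω : Cfg n) : ℝ := ∑ x ∈ Kf E N M ω, hx s N M x

theorem Kf_congr (h4 : S_reach_dep) (E : Set (Sym2 (V n))) (N M : ℕ) {ω ω' : Cfg n}
    (h : ∀ c ∈ (Int' (CB N M) : Set (Ix n)), ω c = ω' c) : Kf E N M ω = Kf E N M ω' := by
  ext y
  rw [mem_Kf, mem_Kf]
  exact h4 n E (CB N M) 0 y ω ω' fun c hc => h c hc.1

theorem meas_coord (c : Ix n) : MeasurableSet {ω : Cfg n | ω c = true} := by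
  have h : Measurable (fun ω : Cfg n => ω c) := measurable_pi_apply c
  exact h (measurableSet_singleton true)

theorem noExit_meas (E : Set (Sym2 (V n))) (K Λ : Set (V n)) : MeasurableSet (noExit E K Λ) := by
  have : noExit E K Λ = ⋂ (x : V n) (y : V n), {ω : Cfg n | x ∈ K → y ∉ Λ → s(x, y) ∈ E →
      ¬ (ω (Sum.inl y) = true ∧ ω (Sum.inr s(x, y)) = true)} := by
    ext ω
    simp only [noExit, Set.mem_iInter, Set.mem_ofPred_eq]
    constructor
    · intro h x y hx hy he
      exact h x hx y hy he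
    · intro h x hx y hy he
      exact h x y hx hy he
  rw [this]
  refine MeasurableSet.iInter fun x => MeasurableSet.iInter fun y => ?_
  by_cases h1 : x ∈ K ∧ y ∉ Λ ∧ s(x, y) ∈ E
  · have h2 : {ω : Cfg n | x ∈ K → y ∉ Λ → s(x, y) ∈ E →
        ¬ (ω (Sum.inl y) = true ∧ ω (Sum.inr s(x, y)) = true)} =
        ({ω : Cfg n | ω (Sum.inl y) = true} ∩ {ω : Cfg n | ω (Sum.inr s(x, y)) = true})ᶜ := by
      ext ω
      simp only [Set.mem_ofPred_eq, Set.mem_compl_iff, Set.mem_inter_iff]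
      exact ⟨fun h => h h1.1 h1.2.1 h1.2.2, fun h _ _ _ => h⟩
    rw [h2]
    refine MeasurableSet.compl (MeasurableSet.inter ?_ ?_)
    · exact meas_coord _
    · exact meas_coord _
  · have h2 : {ω : Cfg n | x ∈ K → y ∉ Λ → s(x, y) ∈ E →
        ¬ (ω (Sum.inl y) = true ∧ ω (Sum.inr s(x, y)) = true)} = univ := by
      ext ω
      simp only [Set.mem_ofPred_eq, Set.mem_univ, iff_true]
      intro a b c
      exact absurd ⟨a, b, c⟩ h1
    rw [h2]
    exact MeasurableSet.univ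

theorem noExit_dep (E : Set (Sym2 (V n))) (K Λ : Set (V n)) :
    DepOn (noExit E K Λ) {c | c ∉ Int' Λ} := by
  intro ω ω' h
  have key : ∀ x ∈ K, ∀ y ∉ Λ, (ω (Sum.inl y) = ω' (Sum.inl y)) ∧
      ω (Sum.inr s(x, y)) = ω' (Sum.inr s(x, y)) := by
    intro x _ y hy
    constructor
    · apply h
      rintro (⟨z, hz, hzy⟩ | ⟨e, _, he⟩)
      · rw [Sum.inl.injEq] at hzy
        exact hy (hzy ▸ hz)
      · simp at he
    · apply h
      rintro (⟨z, hz, hzy⟩ | ⟨e, he, hey⟩)
      · simp at hzy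
      · rw [Sum.inr.injEq] at hey
        exact hy (he y (by rw [← hey]; exact Sym2.mem_mk_right x y))
  constructor
  · intro hω x hx y hy he
    rw [← (key x hx y hy).1, ← (key x hx y hy).2]
    exact hω x hx y hy he
  · intro hω x hx y hy he
    rw [(key x hx y hy).1, (key x hx y hy).2]
    exact hω x hx y hy he

theorem not_perc {E : Set (Sym2 (V n))} {N M : ℕ} {ω : Cfg n}
    (h : ω ∈ noExit E (Kf E N M ω : Set (V n)) (CB N M)) : ω ∉ Perc E 0 := by
  intro hp
  apply hp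
  refine (Finset.finite_toSet (Kf E N M ω)).subset ?_
  intro y hy0
  have hy : (G E ω univ).Reachable 0 y := hy0
  clear hy0
  rw [SimpleGraph.reachable_iff_reflTransGen] at hy
  induction hy with
  | refl => exact Finset.mem_coe.mpr (mem_Kf.mpr (SimpleGraph.Reachable.refl _))
  | @tail b c _ hadj ih =>
    by_cases hc : c ∈ (CB N M : Set (V n))
    · have hb := Kf_sub (Finset.mem_coe.mp ih)
      refine Finset.mem_coe.mpr (mem_Kf.mpr ((mem_Kf.mp (Finset.mem_coe.mp ih)).trans ?_))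
      apply SimpleGraph.Adj.reachable
      exact ⟨hadj.1, hb, hc, hadj.2.2.2⟩
    · exact absurd ⟨hadj.2.2.2.2.2.1, hadj.2.2.2.2.2.2⟩ (h b ih c hc hadj.2.2.2.1)

theorem exists_box (F : Finset (Ix n)) : ∃ L0 : ℕ, ∀ N M : ℕ, L0 ≤ N → L0 ≤ M →
    ∀ c ∈ F, c ∈ (Int' (CB N M) : Set (Ix n)) := by
  classical
  have hv : ∀ x : V n, ∃ L : ℕ, ∀ N M : ℕ, L ≤ N → L ≤ M → x ∈ (CB N M : Set (V n)) := by
    intro x
    refine ⟨x.1.natAbs + ∑ i, (x.2 i).natAbs, fun N M hN hM => ⟨?_, fun i => ?_⟩⟩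
    · have : (x.1.natAbs : ℤ) ≤ N := by exact_mod_cast (Nat.le_add_right _ _).trans hN
      rwa [Int.natCast_natAbs] at this
    · have h1 : (x.2 i).natAbs ≤ ∑ i, (x.2 i).natAbs :=
        Finset.single_le_sum (f := fun i => (x.2 i).natAbs) (fun i _ => Nat.zero_le _)
          (Finset.mem_univ i)
      have : ((x.2 i).natAbs : ℤ) ≤ M := by
        exact_mod_cast (h1.trans (Nat.le_add_left _ _)).trans hM
      rwa [Int.natCast_natAbs] at this
  have hc : ∀ c : Ix n, ∃ L : ℕ, ∀ N M : ℕ, L ≤ N → L ≤ M → c ∈ (Int' (CB N M) : Set (Ix n)) := by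
    intro c
    rcases c with x | e
    · obtain ⟨L, hL⟩ := hv x
      exact ⟨L, fun N M hN hM => Or.inl ⟨x, hL N M hN hM, rfl⟩⟩
    · induction e using Sym2.ind with
      | _ x y =>
        obtain ⟨L, hL⟩ := hv x
        obtain ⟨L', hL'⟩ := hv y
        refine ⟨max L L', fun N M hN hM => Or.inr ⟨s(x, y), ?_, rfl⟩⟩
        intro z hz
        rw [Sym2.mem_iff] at hz
        rcases hz with rfl | rfl
        · exact hL N M ((le_max_left _ _).trans hN) ((le_max_left _ _).trans hM)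
        · exact hL' N M ((le_max_right _ _).trans hN) ((le_max_right _ _).trans hM)
  choose L hL using hc
  refine ⟨F.sup L, fun N M hN hM c hc => hL c N M ?_ ?_⟩
  · exact (Finset.le_sup hc).trans hN
  · exact (Finset.le_sup hc).trans hM

theorem claim1 (h1 : S_glue) (h2 : S_approx) (h3 : S_noexit) (h4 : S_reach_dep)
    (h5 : S_perc_meas) (h6 : S_int_fin) (h7 : S_depmeas) (n m : ℕ) (a p : unitInterval)
    (β : NNReal) (s : ℝ) (hs : 1 < s) (hap : (a : ℝ) * p < 1) (H η : ℝ) (hη : 0 < η) :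
    ∃ L0 : ℕ, ∀ N M : ℕ, L0 ≤ N → L0 ≤ M →
      (pm (prob (n := n) a p β s m)).real
        (Perc (EdI m) 0 ∩ {ω | hh (EdI m) s N M ω ≤ H}) ≤ η := by
  classical
  obtain ⟨C, hC, hno⟩ := h3 n m a p β s hs hap
  set r : Ix n → unitInterval := prob (n := n) a p β s m with hr
  set As : Set (Cfg n) := Perc (EdI m) 0 with hAs
  have hη' : 0 < η / (1 + Real.exp (C * H)) := by positivity
  obtain ⟨F, A', hA'dep, hd1, hd2⟩ := h2 (Ix n) r As (h5 n (EdI m) 0) _ hη'
  obtain ⟨L0, hL0⟩ := exists_box F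
  refine ⟨L0, fun N M hN hM => ?_⟩
  have hfin := h6 n (CB N M) (CB_finite N M)
  set S : Finset (Ix n) := hfin.toFinset with hS
  have hSmem : ∀ c, c ∈ S ↔ c ∈ (Int' (CB N M) : Set (Ix n)) := fun c => by
    rw [hS, Set.Finite.mem_toFinset]
  set T : Set (Cfg n) := A' ∩ {ω | hh (EdI m) s N M ω ≤ H} with hT
  have hTdep : DepOn T (S : Set (Ix n)) := by
    intro ω ω' hω
    have e1 : ω ∈ A' ↔ ω' ∈ A' := hA'dep ω ω' fun c hc =>
      hω c (Finset.mem_coe.mpr ((hSmem c).mpr (hL0 N M hN hM c (Finset.mem_coe.mp hc))))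
    have e2 : Kf (EdI m) N M ω = Kf (EdI m) N M ω' := Kf_congr h4 _ N M fun c hc =>
      hω c (Finset.mem_coe.mpr ((hSmem c).mpr hc))
    simp only [hT, Set.mem_inter_iff, Set.mem_ofPred_eq, hh, e2, e1]
  have hTm : MeasurableSet T := h7 (Ix n) S T hTdep
  -- gluing
  set Ev : Cfg n → Set (Cfg n) := fun ω =>
    if ω ∈ T then noExit (EdI m) (Kf (EdI m) N M ω : Set (V n)) (CB N M) else ∅ with hEv
  have hg := h1 (Ix n) r S Ev (by
      intro ω ω' hω
      have e1 : ω ∈ T ↔ ω' ∈ T := hTdep ω ω' fun c hc => hω c (Finset.mem_coe.mp hc)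
      have e2 : Kf (EdI m) N M ω = Kf (EdI m) N M ω' := Kf_congr h4 _ N M fun c hc =>
        hω c ((hSmem c).mpr hc)
      simp only [hEv, e1, e2])
    (by
      intro ω
      simp only [hEv]
      split_ifs
      · intro ω1 ω2 h12
        exact noExit_dep (EdI m) _ (CB N M) ω1 ω2 fun c hc => h12 c (by
          intro hcS
          exact hc ((hSmem c).mp hcS))
      · intro ω1 ω2 _
        simp)
    (by
      intro ω
      simp only [hEv]
      split_ifs
      · exact noExit_meas _ _ _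
      · exact MeasurableSet.empty)
  have hlow : ENNReal.ofReal (Real.exp (-(C * H))) * pm r T ≤ pm r {ω | ω ∈ Ev ω} := by
    rw [hg.2, ← lintegral_indicator_const hTm]
    refine lintegral_mono fun ω => ?_
    by_cases hω : ω ∈ T
    · rw [Set.indicator_of_mem hω]
      simp only [hEv, if_pos hω]
      refine ENNReal.ofReal_le_of_le_toReal ?_
      have h8 := hno N M (Kf (EdI m) N M ω) (fun x hx => Kf_sub hx)
      refine le_trans (Real.exp_le_exp.mpr ?_) h8
      have : hh (EdI m) s N M ω ≤ H := hω.2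
      have h9 : C * (∑ x ∈ Kf (EdI m) N M ω, hx s N M x) ≤ C * H :=
        mul_le_mul_of_nonneg_left this hC.le
      linarith
    · rw [Set.indicator_of_notMem hω]
      simp
  have hup : pm r {ω | ω ∈ Ev ω} ≤ pm r (A' \ As) := by
    refine measure_mono ?_
    intro ω hω
    have hω : ω ∈ Ev ω := hω
    by_cases hT' : ω ∈ T
    · simp only [hEv, if_pos hT'] at hω
      exact ⟨hT'.1, not_perc hω⟩
    · simp only [hEv, if_neg hT'] at hω
      exact absurd hω (Set.notMem_empty ω)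
  have hreal : Real.exp (-(C * H)) * (pm r).real T ≤ (pm r).real (A' \ As) := by
    have h10 := ENNReal.toReal_mono (measure_ne_top (pm r) _) (hlow.trans hup)
    rw [ENNReal.toReal_mul, ENNReal.toReal_ofReal (Real.exp_pos _).le] at h10
    exact h10
  have hT2 : (pm r).real T ≤ Real.exp (C * H) * (η / (1 + Real.exp (C * H))) := by
    have h11 : (pm r).real T = Real.exp (C * H) * (Real.exp (-(C * H)) * (pm r).real T) := by
      rw [← mul_assoc, ← Real.exp_add, add_neg_cancel, Real.exp_zero, one_mul]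
    rw [h11]
    exact mul_le_mul_of_nonneg_left (hreal.trans hd2) (Real.exp_pos _).le
  calc (pm r).real (As ∩ {ω | hh (EdI m) s N M ω ≤ H})
      ≤ (pm r).real ((As \ A') ∪ T) := by
        refine measureReal_mono ?_ (measure_ne_top _ _)
        rintro ω ⟨ha, hb⟩
        by_cases hA : ω ∈ A'
        · exact Or.inr ⟨hA, hb⟩
        · exact Or.inl ⟨ha, hA⟩
    _ ≤ (pm r).real (As \ A') + (pm r).real T := measureReal_union_le _ _
    _ ≤ η / (1 + Real.exp (C * H)) + Real.exp (C * H) * (η / (1 + Real.exp (C * H))) :=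
        add_le_add hd1 hT2
    _ = η := by
        have : (1 + Real.exp (C * H)) ≠ 0 := by positivity
        field_simp

/-- counting -/
theorem count_le {Ω : Type} [MeasurableSpace Ω] (μ : Measure Ω) [IsProbabilityMeasure μ]
    {κ : Type} (T : Finset κ) (Q : κ → Set Ω) (B : Set Ω) (hB : MeasurableSet B)
    (hQ : ∀ i ∈ T, MeasurableSet (Q i)) (k : ℝ)
    (h : ∀ ω ∈ B, k ≤ ∑ i ∈ T, (Q i).indicator (fun _ => (1 : ℝ)) ω) :
    k * μ.real B ≤ ∑ i ∈ T, μ.real (Q i ∩ B) := by
  have hint : ∀ i ∈ T, Integrable ((Q i).indicator (fun _ => (1 : ℝ))) (μ.restrict B) :=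
    fun i hi => (integrable_const _).indicator (hQ i hi)
  have h1 : ∫ ω in B, k ∂μ ≤ ∫ ω in B, ∑ i ∈ T, (Q i).indicator (fun _ => (1 : ℝ)) ω ∂μ := by
    refine setIntegral_mono_on (integrable_const _) (integrable_finsetSum _ hint) hB h
  rw [setIntegral_const, smul_eq_mul, integral_finsetSum _ hint] at h1
  rw [mul_comm]
  refine h1.trans (le_of_eq (Finset.sum_congr rfl fun i hi => ?_))
  rw [integral_indicator_const _ (hQ i hi), smul_eq_mul, mul_one, measureReal_restrict_apply (hQ i hi)]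

theorem Mof_tendsto {s : ℝ} (hs : 1 < s) (L : ℕ) : ∃ N0 : ℕ, ∀ N ≥ N0, L ≤ Mof s N := by
  have h1 : Filter.Tendsto (fun N : ℕ => (N : ℝ) ^ (s - 1)) Filter.atTop Filter.atTop :=
    (tendsto_rpow_atTop (by linarith)).comp tendsto_natCast_atTop_atTop
  obtain ⟨N0, hN0⟩ := (Filter.tendsto_atTop.mp h1 (L : ℝ)).exists_forall_of_atTop
  refine ⟨N0, fun N hN => ?_⟩
  exact Nat.le_floor (hN0 N hN)

theorem s_big (h1 : S_glue) (h2 : S_approx) (h3 : S_noexit) (h4 : S_reach_dep)
    (h5 : S_perc_meas) (h6 : S_int_fin) (h7 : S_depmeas) (h8 : S_avg) : S_big := by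
  classical
  intro n m a p β s hn hm hs hs2 hap A θ hθ hperc
  obtain ⟨C1, hC1, havg⟩ := h8 n s hs hs2
  set r : Ix n → unitInterval := prob (n := n) a p β s m with hr
  set H : ℝ := 4 * C1 * (A + 1) with hH
  have hHpos : 0 < H := by positivity
  obtain ⟨L0, hL0⟩ := claim1 h1 h2 h3 h4 h5 h6 h7 n m a p β s hs hap H (θ / 4) (by linarith)
  obtain ⟨N1, hN1⟩ := Mof_tendsto hs (max L0 1)
  refine ⟨max N1 (max L0 1), fun N hN => ?_⟩
  have hNN1 : N1 ≤ N := (le_max_left _ _).trans hN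
  have hNL : L0 ≤ N := ((le_max_left _ _).trans (le_max_right _ _)).trans hN
  have hN1' : 1 ≤ N := ((le_max_right _ _).trans (le_max_right _ _)).trans hN
  set M : ℕ := Mof s N with hM
  have hML : L0 ≤ M := (le_max_left _ _).trans (hN1 N hNN1)
  have hM1 : 1 ≤ M := (le_max_right _ _).trans (hN1 N hNN1)
  set E : Set (Sym2 (V n)) := EdI m with hE
  -- measurability of events which depend on the clusters in the boxes
  have hmeas : ∀ (N' M' : ℕ) (P : Finset (V n) → Prop),
      MeasurableSet {ω : Cfg n | P (Kf E N' M' ω)} := by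
    intro N' M' P
    have hfin := h6 n (CB N' M') (CB_finite N' M')
    refine h7 (Ix n) hfin.toFinset _ fun ω ω' hω => ?_
    have : Kf E N' M' ω = Kf E N' M' ω' := Kf_congr h4 E N' M' fun c hc =>
      hω c (Finset.mem_coe.mpr (hfin.mem_toFinset.mpr hc))
    simp only [Set.mem_ofPred_eq, this]
  set I : Finset (ℕ × ℕ) := Finset.Ioc N (2 * N) ×ˢ Finset.Ioc M (2 * M) with hI
  let Q : ℕ × ℕ → Set (Cfg n) := fun q => {ω | hh E s q.1 q.2 ω ≤ H}
  have hQm : ∀ q, MeasurableSet (Q q) := fun q => hmeas q.1 q.2 fun K => ∑ x ∈ K, hx s q.1 q.2 x ≤ H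
  set Bs : Set (Cfg n) := {ω | (Kf E (2 * N) (2 * M) ω).card < A * M} with hBs
  have hBsm : MeasurableSet Bs := hmeas (2 * N) (2 * M) fun K => K.card < A * M
  set B : Set (Cfg n) := Perc E 0 ∩ Bs with hB
  have hBm : MeasurableSet B := (h5 n E 0).inter hBsm
  have hNR : (1 : ℝ) ≤ N := by exact_mod_cast hN1'
  have hMR : (1 : ℝ) ≤ M := by exact_mod_cast hM1
  have hMN : (M : ℝ) * (N : ℝ) ^ (2 - s) ≤ N := by
    have h9 : (M : ℝ) ≤ (N : ℝ) ^ (s - 1) := Nat.floor_le (Real.rpow_nonneg (Nat.cast_nonneg N) _)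
    calc (M : ℝ) * (N : ℝ) ^ (2 - s) ≤ (N : ℝ) ^ (s - 1) * (N : ℝ) ^ (2 - s) :=
          mul_le_mul_of_nonneg_right h9 (Real.rpow_nonneg (Nat.cast_nonneg N) _)
      _ = (N : ℝ) ^ ((s - 1) + (2 - s)) := (Real.rpow_add (by linarith) _ _).symm
      _ = N := by
        have : (s - 1) + (2 - s) = 1 := by ring
        rw [this, Real.rpow_one]
  have hcard : (I.card : ℝ) = N * M := by
    rw [hI, Finset.card_product, Nat.card_Ioc, Nat.card_Ioc]
    have e1 : 2 * N - N = N := by omega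
    have e2 : 2 * M - M = M := by omega
    rw [e1, e2]
    push_cast
    ring
  have hcount : ∀ ω ∈ B, (N * M / 2 : ℝ) ≤ ∑ q ∈ I, (Q q).indicator (fun _ => (1 : ℝ)) ω := by
    rintro ω ⟨_, hω⟩
    have hω : (Kf E (2 * N) (2 * M) ω).card < A * M := hω
    have hnn : ∀ q ∈ I, 0 ≤ hh E s q.1 q.2 ω := fun q _ =>
      Finset.sum_nonneg fun x hx' => hx_nonneg (Kf_sub hx')
    -- the sum of the exit costs
    have hsum : ∑ q ∈ I, hh E s q.1 q.2 ω ≤ H / 2 * (N * M) := by
      have h10 := havg N M hN1' hM1 (Kf E (2 * N) (2 * M) ω)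
      have h11 : ∑ q ∈ I, hh E s q.1 q.2 ω ≤
          ∑ N' ∈ Finset.Ioc N (2 * N), ∑ M' ∈ Finset.Ioc M (2 * M),
            ∑ x ∈ (Kf E (2 * N) (2 * M) ω).filter (fun x => x ∈ (CB N' M' : Set (V n))),
              hx s N' M' x := by
        rw [hI, Finset.sum_product]
        refine Finset.sum_le_sum fun N' hN' => Finset.sum_le_sum fun M' hM' => ?_
        rw [Finset.mem_Ioc] at hN' hM'
        refine Finset.sum_le_sum_of_subset_of_nonneg ?_ ?_
        · intro x hx'
          rw [Finset.mem_filter]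
          exact ⟨Kf_mono hN'.2 hM'.2 ω hx', Kf_sub hx'⟩
        · intro x hx' _
          exact hx_nonneg (Finset.mem_filter.mp hx').2
      refine (h11.trans h10).trans ?_
      have h12 : ((Kf E (2 * N) (2 * M) ω).card : ℝ) ≤ (A + 1) * M := by
        have h13 : ((Kf E (2 * N) (2 * M) ω).card : ℝ) ≤ ((A * M : ℕ) : ℝ) := by
          exact_mod_cast hω.le
        push_cast at h13
        nlinarith
      calc C1 * ((Kf E (2 * N) (2 * M) ω).card : ℝ) * (N + M * (N : ℝ) ^ (2 - s))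
          ≤ C1 * ((A + 1) * M) * (N + N) := by
            refine mul_le_mul (mul_le_mul_of_nonneg_left h12 hC1.le) (by linarith) ?_ ?_
            · have : 0 ≤ (M : ℝ) * (N : ℝ) ^ (2 - s) :=
                mul_nonneg (by linarith) (Real.rpow_nonneg (Nat.cast_nonneg N) _)
              linarith
            · positivity
        _ = H / 2 * (N * M) := by rw [hH]; ring
    -- Markov
    have h14 : ∑ q ∈ I, (H - H * (Q q).indicator (fun _ => (1 : ℝ)) ω) ≤ H / 2 * (N * M) := by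
      refine le_trans (Finset.sum_le_sum fun q hq => ?_) hsum
      by_cases hqω : ω ∈ Q q
      · rw [Set.indicator_of_mem hqω]
        have := hnn q hq
        linarith
      · rw [Set.indicator_of_notMem hqω]
        have : ¬ hh E s q.1 q.2 ω ≤ H := hqω
        push Not at this
        linarith
    rw [Finset.sum_sub_distrib, Finset.sum_const, nsmul_eq_mul, hcard, ← Finset.mul_sum] at h14
    have h15 : H * (N * M / 2) ≤ H * ∑ q ∈ I, (Q q).indicator (fun _ => (1 : ℝ)) ω := by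
      linarith
    exact le_of_mul_le_mul_left h15 hHpos
  have h16 := count_le (pm r) I Q B hBm (fun q _ => hQm q) (N * M / 2) hcount
  have h17 : ∑ q ∈ I, (pm r).real (Q q ∩ B) ≤ (N * M) * (θ / 4) := by
    calc ∑ q ∈ I, (pm r).real (Q q ∩ B) ≤ ∑ q ∈ I, θ / 4 := by
          refine Finset.sum_le_sum fun q hq => ?_
          rw [hI, Finset.mem_product, Finset.mem_Ioc, Finset.mem_Ioc] at hq
          refine le_trans (measureReal_mono ?_ (measure_ne_top _ _))
            (hL0 q.1 q.2 (by omega) (by omega))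
          rintro ω ⟨ha, hb⟩
          exact ⟨hb.1, ha⟩
      _ = _ := by rw [Finset.sum_const, nsmul_eq_mul, hcard]
  have h18 : (pm r).real B ≤ θ / 2 := by
    have h19 : (N * M / 2 : ℝ) * (pm r).real B ≤ (N * M / 2) * (θ / 2) := by linarith
    exact le_of_mul_le_mul_left h19 (by positivity)
  have h20 : (pm r).real (Perc E 0) ≤ (pm r).real B + (pm r).real Bsᶜ := by
    refine le_trans (measureReal_mono ?_ (measure_ne_top _ _)) (measureReal_union_le _ _)
    intro ω hω
    by_cases h21 : ω ∈ Bs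
    · exact Or.inl ⟨hω, h21⟩
    · exact Or.inr h21
  have h22 : Bsᶜ ⊆ {ω | A * M ≤ (cl E ω (CB (2 * N) (2 * M)) 0).ncard} := by
    intro ω hω
    have hω : ¬ (Kf E (2 * N) (2 * M) ω).card < A * M := hω
    push Not at hω
    show A * M ≤ (cl E ω (CB (2 * N) (2 * M)) 0).ncard
    rw [← coe_Kf, Set.ncard_coe_finset]
    exact hω
  have h23 : (pm r).real Bsᶜ ≤
      (pm r).real {ω | A * M ≤ (cl E ω (CB (2 * N) (2 * M)) 0).ncard} :=
    measureReal_mono h22 (measure_ne_top _ _)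
  linarith

end

end Pool.Agent.W230.PCBig
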